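import Pool.Agent.H41.CP.GDefs

/-!
# Reductions for vertices of degree `r` and adjacent vertices of degree `r + 1`
(`S_GG1`, `S_GG2`, project CPG of helper41; adapted from helper102's file for `r = 3`)
-/

set_option autoImplicit false

namespace Pool.Agent.H806.CPG

open Finset Pool.Agent.H41.CPG
open Pool.Agent.H41.CP (nb dg)

theorem ext_one {r : ℕ} {V : Type} [DecidableEq V] (G : SimpleGraph V) [DecidableRel G.Adj]
    (σ : V → V → PP r) (hσ : ∀ u v, G.Adj u v → σ v u = (σ u v)⁻¹) (W : Finset V) (v : V)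
    (φ : V → PP r) (hφ : Packs G σ (W.erase v) φ) (s : PP r)
    (hs : ∀ u ∈ nb G W v, ∀ x, s x ≠ (σ u v * φ u) x) : Packs G σ W (Function.update φ v s) := by
  intro a ha b hb hab i
  by_cases hav : a = v
  · subst hav
    have hba : b ≠ a := hab.ne'
    rw [Function.update_self, Function.update_of_ne hba, hσ b a hab.symm]
    intro h
    have h1 := hs b (mem_filter.2 ⟨hb, hab⟩) i
    apply h1
    rw [Equiv.Perm.mul_apply, h]
    simp
  · by_cases hbv : b = v
    · subst hbv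
      rw [Function.update_self, Function.update_of_ne hav]
      exact hs a (mem_filter.2 ⟨ha, hab.symm⟩) i
    · rw [Function.update_of_ne hav, Function.update_of_ne hbv]
      exact hφ a (mem_erase.2 ⟨hav, ha⟩) b (mem_erase.2 ⟨hbv, hb⟩) hab i

theorem padr {r m : ℕ} {V : Type} (s : Finset V) (hs : s.card ≤ m) (f : V → PP r) :
    ∃ H : Fin m → PP r, ∀ u ∈ s, ∃ i, H i = f u := by
  refine ⟨fun i => (s.toList.map f).getD i 1, fun u hu => ?_⟩
  obtain ⟨k, hk, hku⟩ := List.getElem_of_mem (mem_toList.2 hu)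
  have hk' : k < s.card := by rwa [length_toList] at hk
  refine ⟨⟨k, by omega⟩, ?_⟩
  simp [List.getD_eq_getElem?_getD, hk', hku]

theorem gg1 (hh : S_GHALL) : S_GG1 := by
  intro r hr V _ G _ σ hσ W v hv hd φ hφ
  obtain ⟨H, hH⟩ := padr (m := r) (nb G W v) hd (fun u => σ u v * φ u)
  have h0 : 0 < 2 * r := by omega
  obtain ⟨s, hs, -, -⟩ := hh r hr H ⟨0, h0⟩ ⟨0, h0⟩ ⟨0, h0⟩ ⟨0, h0⟩
  refine ⟨_, ext_one G σ hσ W v φ hφ s fun u hu x => ?_⟩
  obtain ⟨i, hi⟩ := hH u hu
  rw [← hi]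
  exact hs i x

theorem gg2 (hh : S_GHALL) (hc : S_GCORE) : S_GG2 := by
  intro r hr V _ G _ σ hσ W u w hu hw huw hdu hdw φ hφ
  have huw' : u ≠ w := huw.ne
  have hcw : ((nb G W w).erase u).card ≤ r := by
    have hm : u ∈ nb G W w := mem_filter.2 ⟨hu, huw.symm⟩
    have h4 : (nb G W w).card = r + 1 := hdw
    rw [card_erase_of_mem hm, h4]
    omega
  have hcu : ((nb G W u).erase w).card ≤ r := by
    have hm : w ∈ nb G W u := mem_filter.2 ⟨hw, huw⟩
    have h4 : (nb G W u).card = r + 1 := hdu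
    rw [card_erase_of_mem hm, h4]
    omega
  obtain ⟨F, hF⟩ := padr (m := r) _ hcw (fun x => σ x w * φ x)
  obtain ⟨H, hH⟩ := padr (m := r) _ hcu (fun x => σ x u * φ x)
  -- two cells whose avoidance makes the result not bad
  obtain ⟨a, b, ca, cb, hab⟩ : ∃ a b ca cb : Fin (2 * r), ∀ g : PP r, Bad F g →
      g a = ca ∨ g b = cb := by
    by_cases hbad : ∃ f, Bad F f
    · obtain ⟨f, hf⟩ := hbad
      obtain ⟨X, hX, hXf⟩ := hc r hr F f hf
      have h1 : 1 < X.card := by omega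
      obtain ⟨a, ha, b, hb, hne⟩ := Finset.one_lt_card.1 h1
      refine ⟨a, b, f a, f b, fun g hg => ?_⟩
      by_contra hcon
      rw [not_or] at hcon
      have h2 := hXf g hg
      have h3 : ({a, b} : Finset (Fin (2 * r))) ⊆ X.filter fun x => g x ≠ f x := by
        intro x hx
        rw [Finset.mem_insert, Finset.mem_singleton] at hx
        rcases hx with rfl | rfl
        · exact mem_filter.2 ⟨ha, hcon.1⟩
        · exact mem_filter.2 ⟨hb, hcon.2⟩
      have h4 := Finset.card_le_card h3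
      rw [Finset.card_pair hne] at h4
      omega
    · have h0 : 0 < 2 * r := by omega
      exact ⟨⟨0, h0⟩, ⟨0, h0⟩, ⟨0, h0⟩, ⟨0, h0⟩, fun g hg => absurd ⟨g, hg⟩ hbad⟩
  obtain ⟨s, hs, hsa, hsb⟩ := hh r hr H a b ((σ u w)⁻¹ ca) ((σ u w)⁻¹ cb)
  have h1 : Packs G σ (W.erase w) (Function.update φ u s) := by
    apply ext_one G σ hσ (W.erase w) u φ
    · rw [erase_right_comm]; exact hφ
    · intro x hx y
      obtain ⟨hx1, hx2⟩ := mem_filter.1 hx
      obtain ⟨hxw, hxW⟩ := mem_erase.1 hx1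
      obtain ⟨i, hi⟩ := hH x (mem_erase.2 ⟨hxw, mem_filter.2 ⟨hxW, hx2⟩⟩)
      rw [← hi]
      exact hs i y
  have hnb : ¬ Bad F (σ u w * s) := by
    intro hbad
    rcases hab _ hbad with h | h
    · apply hsa
      rw [← h]; simp
    · apply hsb
      rw [← h]; simp
  unfold Bad at hnb
  rw [not_not] at hnb
  obtain ⟨s', hs'⟩ := hnb
  refine ⟨_, ext_one G σ hσ W w _ h1 s' fun x hx y => ?_⟩
  obtain ⟨hx1, hx2⟩ := mem_filter.1 hx
  by_cases hxu : x = u
  · subst hxu
    rw [Function.update_self]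
    exact (hs' y).1
  · rw [Function.update_of_ne hxu]
    obtain ⟨i, hi⟩ := hF x (mem_erase.2 ⟨hxu, hx⟩)
    rw [← hi]
    exact (hs' y).2 i

end Pool.Agent.H806.CPG
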